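import Pool.Agent.H10.Fox2

/-! A non-minimal partial resolution of length one whose Fox ideal is proper. -/

namespace Pool.Agent.Results.MP_cfa383_al.Yes

/-- A partial resolution `C₁ → C₀ → ℤ` of length one by finitely generated free left modules. -/
structure PRes (G : Type) [Group G] where
  r0 : ℕ
  r1 : ℕ
  d1 : (Fin r1 → MonoidAlgebra ℤ G) →ₗ[MonoidAlgebra ℤ G] (Fin r0 → MonoidAlgebra ℤ G)
  d0 : (Fin r0 → MonoidAlgebra ℤ G) →+ ℤ
  d0_inv : ∀ (g : G) (c : Fin r0 → MonoidAlgebra ℤ G), d0 (MonoidAlgebra.of ℤ G g • c) = d0 c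
  d0_surj : Function.Surjective d0
  exact : Function.Exact d1 d0

/-- The directed Euler characteristic. -/
def PRes.chi {G : Type} [Group G] (C : PRes G) : ℤ := (C.r1 : ℤ) - (C.r0 : ℤ)

/-- The first Fox ideal. -/
noncomputable def PRes.fox {G : Type} [Group G] (C : PRes G) :
    TwoSidedIdeal (MonoidAlgebra ℤ G) :=
  TwoSidedIdeal.span {a | ∃ t : Fin C.r1 → MonoidAlgebra ℤ G, C.d1 t = 0 ∧ ∃ i, a = t i}

open Pool.Agent.H10.Fox2 MonoidAlgebra in
open Pool.Agent.H10.Fox (eps eps_of exact_gen) in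
theorem result : ∃ (G : Type) (_ : Group G) (C E : PRes G), E.chi < C.chi ∧ C.fox ≠ ⊤ := by
  have key : ∀ (n : ℕ) (s : Fin n → GG), Subgroup.closure (Set.range s) = ⊤ → ∃ C : PRes GG,
      C.chi = n - 1 ∧ C.fox = TwoSidedIdeal.span {a | ∃ t : Fin n → MonoidAlgebra ℤ GG,
        ∑ i, t i * (of ℤ GG (s i) - 1) = 0 ∧ ∃ i, a = t i} := by
    intro n s hs
    let d1 : (Fin n → MonoidAlgebra ℤ GG) →ₗ[MonoidAlgebra ℤ GG] (Fin 1 → MonoidAlgebra ℤ GG) :=
      LinearMap.pi fun _ => Fintype.linearCombination _ fun i => of ℤ GG (s i) - 1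
    have hd : ∀ t, d1 t = fun _ => ∑ i, t i * (of ℤ GG (s i) - 1) := fun t =>
      funext fun _ => by simp [d1, Fintype.linearCombination_apply]
    refine ⟨⟨1, n, d1, (eps GG).toAddMonoidHom.comp (Pi.evalAddMonoidHom _ 0), fun g c => ?_,
      fun n => ⟨fun _ => n, map_intCast (eps GG) n⟩, fun c => ⟨fun h => ?_, ?_⟩⟩, rfl, ?_⟩
    · change eps GG (of ℤ GG g * c 0) = eps GG (c 0)
      rw [map_mul, eps_of, one_mul]
    · obtain ⟨t, ht⟩ := exact_gen s hs (c 0) h
      refine ⟨t, ?_⟩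
      rw [hd, ht]
      funext i
      rw [Subsingleton.elim i 0]
    · rintro ⟨t, rfl⟩
      rw [hd]
      change eps GG (∑ i, t i * (of ℤ GG (s i) - 1)) = 0
      simp only [map_sum, map_mul, map_sub, eps_of, map_one, sub_self, mul_zero,
        Finset.sum_const_zero]
    · simp only [PRes.fox, hd]
      congr 1
      ext a
      refine exists_congr fun t => and_congr_left' ⟨fun h => congrFun h 0, fun h => ?_⟩
      rw [h]; rfl
  obtain ⟨C, hC, eC⟩ := key 7 s1 hs1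
  obtain ⟨D, hD, -⟩ := key 6 s2 hs2
  refine ⟨GG, inferInstance, C, D, by rw [hC, hD]; norm_num, fun h => ?_⟩
  have h2 : C.fox ≤ TwoSidedIdeal.ker (rho GG) := by
    rw [eC, TwoSidedIdeal.span_le]
    rintro _ ⟨t, ht, i, rfl⟩
    exact (TwoSidedIdeal.mem_ker _).2 (ker1 s1 (fun _ => rfl) t ht i)
  have h3 := (TwoSidedIdeal.mem_ker _).1 (h2 (h ▸ TwoSidedIdeal.mem_top (x := 1)))
  rw [map_one] at h3
  exact one_ne_zero h3

end Pool.Agent.Results.MP_cfa383_al.Yes
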